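import Pool.Agent.Run7.h329.FCC.Odd

set_option autoImplicit false

namespace Pool.Agent.Results.MP_3c540c_co.OddMultiples

open Pool.Agent.H126R2.CDC (MGraph)
open Pool.Agent.W51.FCC

/-- Let `k` be odd. Every graph with property `P_1` has property `P_k`, and every graph with
property `P_k` contains no subdivision of the Petersen graph. -/
theorem result : ∀ k : ℕ, Odd k →
    ∀ (V E : Type) [Fintype V] [DecidableEq V] [Fintype E] [DecidableEq E] (G : MGraph V E),
      (PropertyP 1 G → PropertyP k G) ∧ (PropertyP k G → IsEmpty (PetersenSubdivision G)) := by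
  intro k hk V E _ _ _ _ G
  exact ⟨fun h w _ ha he => h w (fun e => one_dvd _) ha he,
    fun h => ⟨fun S => Run7.h329.FCC.main S hk h⟩⟩

end Pool.Agent.Results.MP_3c540c_co.OddMultiples
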